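import Pool.Agent.helper5.BEY.SpecA

/-!
# Row OSS of project BEY: the sum of the oscillatory integrals over the shifts
-/

set_option autoImplicit false

open Complex MeasureTheory

namespace Pool.Agent.BEY

/-- the symmetry -/
theorem OSS_sym (A B : ℝ → ℝ) (t t' : ℝ) (j : ℤ) : ‖OI A B t t' (-j)‖ = ‖OI B A t' t j‖ := by
  have h1 : OI A B t t' (-j) = (starRingEnd ℂ) (OI B A t' t j) := by
    unfold OI
    rw [← integral_conj, ← integral_add_right_eq_self (fun y : ℝ =>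
      ((A (y + ((-j : ℤ) : ℝ)) * B y : ℝ) : ℂ) *
        (E t (y + ((-j : ℤ) : ℝ)) * (starRingEnd ℂ) (E t' y))) (j : ℝ)]
    refine integral_congr_ae (Filter.Eventually.of_forall fun y => ?_)
    show ((A (y + (j : ℝ) + ((-j : ℤ) : ℝ)) * B (y + (j : ℝ)) : ℝ) : ℂ) *
        (E t (y + (j : ℝ) + ((-j : ℤ) : ℝ)) * (starRingEnd ℂ) (E t' (y + (j : ℝ)))) =
      (starRingEnd ℂ) (((B (y + (j : ℝ)) * A y : ℝ) : ℂ) *
        (E t' (y + (j : ℝ)) * (starRingEnd ℂ) (E t y)))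
    have h2 : y + (j : ℝ) + ((-j : ℤ) : ℝ) = y := by push_cast; ring
    rw [h2, map_mul, map_mul, Complex.conj_conj, Complex.conj_ofReal]
    push_cast
    ring
  rw [h1, Complex.norm_conj]

theorem OSS_split (N : ℕ) (f : ℤ → ℝ) :
    ∑ j ∈ (Finset.Icc (-(N : ℤ)) (N : ℤ)).erase 0, f j =
      ∑ k ∈ Finset.range N, (f ((k : ℤ) + 1) + f (-((k : ℤ) + 1))) := by
  induction N with
  | zero => simp
  | succ N ih =>
    have h : (Finset.Icc (-((N + 1 : ℕ) : ℤ)) ((N + 1 : ℕ) : ℤ)).erase 0 =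
        insert ((N : ℤ) + 1) (insert (-((N : ℤ) + 1))
          ((Finset.Icc (-(N : ℤ)) (N : ℤ)).erase 0)) := by
      ext j
      simp only [Finset.mem_erase, Finset.mem_Icc, Finset.mem_insert]
      push_cast
      omega
    rw [h, Finset.sum_insert, Finset.sum_insert, ih, Finset.sum_range_succ]
    · ring
    · simp only [Finset.mem_erase, Finset.mem_Icc]
      omega
    · simp only [Finset.mem_erase, Finset.mem_Icc, Finset.mem_insert]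
      omega

theorem OSS_har (N : ℕ) (Q : ℝ) (hQ : 1 ≤ Q) (hN : (N : ℝ) ≤ 5 * Q) (hN1 : 1 ≤ N) :
    ∑ k ∈ Finset.range N, (1 : ℝ) / ((k : ℝ) + 1) ≤ 5 * (1 + Real.log Q) := by
  have h1 : ∑ k ∈ Finset.range N, (1 : ℝ) / ((k : ℝ) + 1) = ((harmonic N : ℚ) : ℝ) := by
    unfold harmonic
    push_cast
    exact Finset.sum_congr rfl fun k _ => one_div _
  have h2 := harmonic_le_one_add_log N
  have hN0 : (0 : ℝ) < N := by exact_mod_cast hN1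
  have h3 : Real.log N ≤ Real.log (5 * Q) := Real.log_le_log hN0 hN
  rw [Real.log_mul (by norm_num) (by linarith)] at h3
  have h4 : Real.log 5 ≤ 5 - 1 := Real.log_le_sub_one_of_pos (by norm_num)
  have h5 : 0 ≤ Real.log Q := Real.log_nonneg hQ
  rw [h1]
  linarith

theorem OSS_card (N : ℕ) (K b : ℝ) (hK : 0 ≤ K) (hb : 0 ≤ b) :
    ∑ k ∈ Finset.range N, (if ((k : ℝ) + 1) < K then b else 0) ≤ K * b := by
  rw [← Finset.sum_filter, Finset.sum_const, nsmul_eq_mul]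
  refine mul_le_mul_of_nonneg_right ?_ hb
  have h1 : (Finset.range N).filter (fun k : ℕ => ((k : ℝ) + 1) < K) ⊆ Finset.range ⌊K⌋₊ := by
    intro k hk
    have h2 := (Finset.mem_filter.1 hk).2
    rw [Finset.mem_range]
    have h3 : k + 1 ≤ ⌊K⌋₊ := by
      apply Nat.le_floor
      push_cast
      exact h2.le
    omega
  have h4 := Finset.card_le_card h1
  rw [Finset.card_range] at h4
  have h5 : (((Finset.range N).filter (fun k : ℕ => ((k : ℝ) + 1) < K)).card : ℝ) ≤ (⌊K⌋₊ : ℝ) := by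
    exact_mod_cast h4
  exact le_trans h5 (Nat.floor_le hK)

theorem OSS_one (C1 C2 : ℝ) (hC1 : 0 < C1) (hC2 : 0 < C2)
    (hA : ∀ (Q T t t' : ℝ) (j : ℤ) (A B : ℝ → ℝ), 1 ≤ Q → Am Q A →
      Am Q B → 0 < T → T / 2 ≤ t' → t' ≤ 3 * T → 1 ≤ j → (t - t') * (4 * Q + 1) ≤ t' * j →
      ‖OI A B t t' j‖ ≤ C1 * (Q ^ 3 / (T * j)))
    (hB : ∀ (Q t t' : ℝ) (j : ℤ) (A B : ℝ → ℝ), 1 ≤ Q → Am Q A →
      Am Q B → 0 < t' → t' < t → 1 ≤ j → ‖OI A B t t' j‖ ≤ C2 * (Q ^ 3 / (t - t')) ^ (1 / 2 : ℝ))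
    (Q T t t' : ℝ) (A B : ℝ → ℝ) (hQ : 1 ≤ Q) (hAm : Am Q A) (hBm : Am Q B) (hT : 0 < T)
    (ht'1 : T / 2 ≤ t') (ht'2 : t' ≤ 3 * T) :
    ∑ k ∈ Finset.range ⌈4 * Q⌉₊, ‖OI A B t t' ((k : ℤ) + 1)‖ ≤
      10 * C2 * (|t - t'| ^ (1 / 2 : ℝ) * Q ^ (5 / 2 : ℝ) / T) +
        5 * C1 * (Q ^ 3 * (1 + Real.log Q) / T) := by
  have hQ0 : 0 < Q := by linarith
  have hN5 : ((⌈4 * Q⌉₊ : ℕ) : ℝ) ≤ 5 * Q := by
    have h := Nat.ceil_lt_add_one (a := 4 * Q) (by linarith)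
    linarith
  have hN1 : 1 ≤ ⌈4 * Q⌉₊ := Nat.one_le_ceil_iff.2 (by linarith)
  have hhar := OSS_har ⌈4 * Q⌉₊ Q hQ hN5 hN1
  have hlog : 0 ≤ Real.log Q := Real.log_nonneg hQ
  have hpos1 : 0 ≤ |t - t'| ^ (1 / 2 : ℝ) * Q ^ (5 / 2 : ℝ) / T := by positivity
  have ht'0 : 0 < t' := by linarith
  have hsum1 : ∑ k ∈ Finset.range ⌈4 * Q⌉₊, C1 * (Q ^ 3 / (T * ((k : ℝ) + 1))) ≤
      5 * C1 * (Q ^ 3 * (1 + Real.log Q) / T) := by
    have h1 : ∑ k ∈ Finset.range ⌈4 * Q⌉₊, C1 * (Q ^ 3 / (T * ((k : ℝ) + 1))) =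
        C1 * (Q ^ 3 / T) * ∑ k ∈ Finset.range ⌈4 * Q⌉₊, (1 : ℝ) / ((k : ℝ) + 1) := by
      rw [Finset.mul_sum]
      refine Finset.sum_congr rfl fun k _ => ?_
      have h2 : (k : ℝ) + 1 ≠ 0 := by positivity
      field_simp
    rw [h1]
    calc C1 * (Q ^ 3 / T) * ∑ k ∈ Finset.range ⌈4 * Q⌉₊, (1 : ℝ) / ((k : ℝ) + 1)
        ≤ C1 * (Q ^ 3 / T) * (5 * (1 + Real.log Q)) :=
          mul_le_mul_of_nonneg_left hhar (by positivity)
      _ = 5 * C1 * (Q ^ 3 * (1 + Real.log Q) / T) := by ring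
  by_cases hle : t ≤ t'
  · have h1 : ∑ k ∈ Finset.range ⌈4 * Q⌉₊, ‖OI A B t t' ((k : ℤ) + 1)‖ ≤
        ∑ k ∈ Finset.range ⌈4 * Q⌉₊, C1 * (Q ^ 3 / (T * ((k : ℝ) + 1))) := by
      refine Finset.sum_le_sum fun k _ => ?_
      have h2 := hA Q T t t' ((k : ℤ) + 1) A B hQ hAm hBm hT ht'1 ht'2 (by omega) (by
        push_cast
        have h3 : (t - t') * (4 * Q + 1) ≤ 0 :=
          mul_nonpos_of_nonpos_of_nonneg (by linarith) (by linarith)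
        have h4 : 0 ≤ t' * ((k : ℝ) + 1) := by positivity
        linarith)
      push_cast at h2
      exact h2
    have h5 : 0 ≤ 10 * C2 * (|t - t'| ^ (1 / 2 : ℝ) * Q ^ (5 / 2 : ℝ) / T) :=
      mul_nonneg (by positivity) hpos1
    linarith
  · have hlt : t' < t := not_le.1 hle
    have hΔ : 0 < t - t' := by linarith
    rw [abs_of_pos hΔ]
    have hK0 : 0 ≤ (t - t') * (4 * Q + 1) / t' := by positivity
    have hb0 : 0 ≤ C2 * (Q ^ 3 / (t - t')) ^ (1 / 2 : ℝ) := by positivity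
    have h1 : ∑ k ∈ Finset.range ⌈4 * Q⌉₊, ‖OI A B t t' ((k : ℤ) + 1)‖ ≤
        ∑ k ∈ Finset.range ⌈4 * Q⌉₊, (C1 * (Q ^ 3 / (T * ((k : ℝ) + 1))) +
          if ((k : ℝ) + 1) < (t - t') * (4 * Q + 1) / t' then
            C2 * (Q ^ 3 / (t - t')) ^ (1 / 2 : ℝ) else 0) := by
      refine Finset.sum_le_sum fun k _ => ?_
      by_cases hk : ((k : ℝ) + 1) < (t - t') * (4 * Q + 1) / t'
      · rw [if_pos hk]
        have h2 := hB Q t t' ((k : ℤ) + 1) A B hQ hAm hBm ht'0 hlt (by omega)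
        have h3 : 0 ≤ C1 * (Q ^ 3 / (T * ((k : ℝ) + 1))) := by positivity
        linarith
      · rw [if_neg hk, add_zero]
        have h2 := hA Q T t t' ((k : ℤ) + 1) A B hQ hAm hBm hT ht'1 ht'2 (by omega) (by
          push_cast
          have h3 := not_lt.1 hk
          rw [div_le_iff₀ ht'0] at h3
          linarith)
        push_cast at h2
        exact h2
    rw [Finset.sum_add_distrib] at h1
    have h4 := OSS_card ⌈4 * Q⌉₊ ((t - t') * (4 * Q + 1) / t')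
      (C2 * (Q ^ 3 / (t - t')) ^ (1 / 2 : ℝ)) hK0 hb0
    have h5 : (t - t') * (4 * Q + 1) / t' ≤ 10 * ((t - t') * Q / T) := by
      rw [div_le_iff₀ ht'0]
      have h6 : 10 * ((t - t') * Q / T) * t' ≥ 10 * ((t - t') * Q / T) * (T / 2) :=
        mul_le_mul_of_nonneg_left ht'1 (by positivity)
      have h7 : 10 * ((t - t') * Q / T) * (T / 2) = (t - t') * (5 * Q) := by
        field_simp
        ring
      have h8 : (t - t') * (4 * Q + 1) ≤ (t - t') * (5 * Q) :=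
        mul_le_mul_of_nonneg_left (by linarith) hΔ.le
      linarith
    have h9 : (t - t') * Q * (Q ^ 3 / (t - t')) ^ (1 / 2 : ℝ) =
        (t - t') ^ (1 / 2 : ℝ) * Q ^ (5 / 2 : ℝ) := by
      rw [Real.div_rpow (by positivity) hΔ.le, ← Real.rpow_natCast Q 3, ← Real.rpow_mul hQ0.le]
      have e1 : (t - t') = (t - t') ^ (1 / 2 : ℝ) * (t - t') ^ (1 / 2 : ℝ) := by
        rw [← Real.rpow_add hΔ]
        norm_num
      have e2 : Q ^ (5 / 2 : ℝ) = Q * Q ^ (((3 : ℕ) : ℝ) * (1 / 2 : ℝ)) := by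
        conv_rhs => rw [← Real.rpow_one_add' hQ0.le (by norm_num)]
        norm_num
      have e3 : (t - t') ^ (1 / 2 : ℝ) ≠ 0 := (Real.rpow_pos_of_pos hΔ _).ne'
      rw [e2]
      generalize hD : (t - t') ^ (1 / 2 : ℝ) = D at e1 e3 ⊢
      rw [e1]
      field_simp
    have h10 : (t - t') * (4 * Q + 1) / t' * (C2 * (Q ^ 3 / (t - t')) ^ (1 / 2 : ℝ)) ≤
        10 * C2 * ((t - t') ^ (1 / 2 : ℝ) * Q ^ (5 / 2 : ℝ) / T) := by
      calc (t - t') * (4 * Q + 1) / t' * (C2 * (Q ^ 3 / (t - t')) ^ (1 / 2 : ℝ))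
          ≤ 10 * ((t - t') * Q / T) * (C2 * (Q ^ 3 / (t - t')) ^ (1 / 2 : ℝ)) :=
            mul_le_mul_of_nonneg_right h5 hb0
        _ = 10 * C2 * (((t - t') * Q * (Q ^ 3 / (t - t')) ^ (1 / 2 : ℝ)) / T) := by ring
        _ = 10 * C2 * ((t - t') ^ (1 / 2 : ℝ) * Q ^ (5 / 2 : ℝ) / T) := by rw [h9]
    linarith

theorem OSS (hOSA : OSA_stmt) (hOSB : OSB_stmt) : OSS_stmt := by
  obtain ⟨C1, hC1, hA⟩ := hOSA
  obtain ⟨C2, hC2, hB⟩ := hOSB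
  refine ⟨20 * C2 + 10 * C1, by positivity, ?_⟩
  intro Q T t t' A B hQ hAm hBm hT ht1 ht2 ht'1 ht'2
  have h1 := OSS_one C1 C2 hC1 hC2 hA hB Q T t t' A B hQ hAm hBm hT ht'1 ht'2
  have h2 := OSS_one C1 C2 hC1 hC2 hA hB Q T t' t B A hQ hBm hAm hT ht1 ht2
  rw [abs_sub_comm t' t] at h2
  rw [OSS_split, Finset.sum_add_distrib]
  have h3 : ∑ k ∈ Finset.range ⌈4 * Q⌉₊, ‖OI A B t t' (-((k : ℤ) + 1))‖ =
      ∑ k ∈ Finset.range ⌈4 * Q⌉₊, ‖OI B A t' t ((k : ℤ) + 1)‖ :=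
    Finset.sum_congr rfl fun k _ => OSS_sym A B t t' ((k : ℤ) + 1)
  rw [h3]
  have hQ0 : 0 < Q := by linarith
  have hlog : 0 ≤ Real.log Q := Real.log_nonneg hQ
  have hp1 : 0 ≤ |t - t'| ^ (1 / 2 : ℝ) * Q ^ (5 / 2 : ℝ) / T := by positivity
  have hp2 : 0 ≤ Q ^ 3 * (1 + Real.log Q) / T := by positivity
  have h4 := mul_nonneg hC1.le hp1
  have h5 := mul_nonneg hC2.le hp2
  nlinarith

end Pool.Agent.BEY
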